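import Pool.Agent.Lib_helper24.AKG.Final
import Pool.Agent.Lib_helper49.FR.Sa

/-!
# Rubin's conjecture for 100 percent of the Kummer extensions with any finite abelian group
-/

namespace Pool.Agent.Results.MP_dd9835_nt.AllKummerGroups

open Pool.Agent.RB Pool.Agent.AKG NumberField IsDedekindDomain

/-- Let `H/F` be an abelian extension of number fields with group `G`, and `F₀ ⊆ F`, `H ⊆ L`.

(1) Let `q_1, …, q_k` be prime powers, so that `∏ ℤ/q_i` is an arbitrary finite abelian group, and let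
`n = lcm(q_i)` be its exponent. Suppose that `F = F₀(ζ_n)` and `[F : F₀] = φ(n)`.

(a) Let `H = F(a_1^{1/q_1}, …, a_k^{1/q_k})` with `a_i ∈ 𝓞_{F₀}` which satisfy `Many`: for all `i` and the
prime `p` dividing `q_i`, sufficiently many places `v` of `F₀` with `N v ≡ -1` modulo `n` divide `a_i`
exactly once and no other `a_j`. Then `G ≅ ∏ ℤ/q_i`, and Rubin's conjecture is true for `H/F` and all
`S`, `T`, `r`, `w_i`.

(b) Let `ω` be a `ℤ`-basis of `𝓞_{F₀}` and `ε > 0`. Then `Many` is true for all but at most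
`ε (2 X + 1) ^ (k d)` of the `a ∈ 𝓞_{F₀}^k` whose `k d` coordinates have absolute value `≤ X`, for
`X ≥ X₀`.

(2) Suppose that one of the following holds: `H/F` is a Kummer extension of exponent `n` which is
defined over `F₀`, where `F = F₀(ζ_n)`, `[F : F₀] = φ(n)` (`KumN`); `H/F₀` is Galois with group
`G ⋊ (ℤ/m)ˣ` (`HolT`); `L/F₀` is Galois with group a product of symmetric groups (`SymP`) and `L/F` is
abelian; all cyclic `K/F` in `H` are of holomorph type (`HolM`). Then for all `S`, `T`, `r`, `w_i` there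
is an element `u = e_r u` with `(w_1^* ∧ … ∧ w_r^*)(λ(u)) = Θ` such that `#G u` lies in Rubin's lattice.
Rubin's conjecture is true for all `S`, `T`, `r`, `w_i` such that, for every prime `p` dividing `#G`,
more than `p ^ (f - 1) ((e - f) (p - 1) + 1)` places in `S` have as decomposition group a nontrivial
`p`-group, where `p ^ e` and `p ^ f` are the exact powers of `p` in `#G` and in the exponent of `G`, and
for all `S ⊇ S₁` for some finite set `S₁`. -/
theorem result {F₀ F H L : Type} [Field F₀] [NumberField F₀] [Field F] [NumberField F] [Field H]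
    [NumberField H] [Field L] [NumberField L] [Algebra F₀ F] [Algebra F₀ H] [Algebra F₀ L]
    [Algebra F H] [Algebra F L] [Algebra H L] [IsScalarTower F₀ F H] [IsScalarTower F₀ F L]
    [IsScalarTower F H L] [IsGalois F H] {G : Type} [CommGroup G] [Fintype G]
    (ι : MulEquiv G (AlgEquiv F H H)) :
    (∀ (k : ℕ) (q : Fin k → ℕ), (∀ i, IsPrimePow (q i)) →
      IsCyclotomicExtension {Finset.univ.lcm q} F₀ F →
      Module.finrank F₀ F = (Finset.univ.lcm q).totient →
      (∀ a : Fin k → RingOfIntegers F₀, Many q a →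
        Polynomial.IsSplittingField F H
          (∏ i, (Polynomial.X ^ q i - Polynomial.C (algebraMap F₀ F (a i)))) →
        Nonempty (MulEquiv G ((i : Fin k) → Multiplicative (ZMod (q i)))) ∧
        ∀ (S : Finset (InfinitePlace F ⊕ HeightOneSpectrum (RingOfIntegers F)))
          (T : Finset (HeightOneSpectrum (RingOfIntegers F))) (r : ℕ)
          (w : Fin r → InfinitePlace H ⊕ HeightOneSpectrum (RingOfIntegers H))
          (fr : HeightOneSpectrum (RingOfIntegers F) → G), Data ι S T w fr →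
          RubinOn ⊤ ι S T w fr) ∧
      ∀ (d : ℕ) (ω : Module.Basis (Fin d) ℤ (RingOfIntegers F₀)) (ε : ℝ), 0 < ε →
        ∃ X₀ : ℕ, ∀ X : ℕ, X₀ ≤ X →
          (Nat.card {a : Fin k → RingOfIntegers F₀ //
            (∀ i j, |ω.repr (a i) j| ≤ (X : ℤ)) ∧ ¬ Many q a} : ℝ) ≤
              ε * (2 * X + 1) ^ (k * d)) ∧
    ((KumN F₀ F H ∨ HolT F₀ F H ∨ (SymP F₀ L ∧ ∀ s t : AlgEquiv F L L, s * t = t * s) ∨
        ∀ K : IntermediateField F H, IsCyclic (AlgEquiv F K K) → HolM F K) →
      ∃ S₁ : Finset (InfinitePlace F ⊕ HeightOneSpectrum (RingOfIntegers F)),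
        ∀ (S : Finset (InfinitePlace F ⊕ HeightOneSpectrum (RingOfIntegers F)))
          (T : Finset (HeightOneSpectrum (RingOfIntegers F))) (r : ℕ)
          (w : Fin r → InfinitePlace H ⊕ HeightOneSpectrum (RingOfIntegers H))
          (fr : HeightOneSpectrum (RingOfIntegers F) → G), Data ι S T w fr →
          RubinOn (Ideal.span {(Nat.card G : MonoidAlgebra ℤ G)}) ι S T w fr ∧
          ((S₁ ⊆ S ∨ ∀ p e f : ℕ, p.Prime → p ∣ Nat.card G → (Nat.card G).factorization p = e →
            (Monoid.exponent G).factorization p = f → p ^ (f - 1) * ((e - f) * (p - 1) + 1) <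
              Nat.card {v : InfinitePlace F ⊕ HeightOneSpectrum (RingOfIntegers F) //
                v ∈ S ∧ Dg ι v ≠ ⊥ ∧ IsPGroup p (Dg ι v)}) → RubinOn ⊤ ι S T w fr)) := by
  refine ⟨fun k q hq hF hn => ⟨fun a ha h => ?_, fun d ω ε hε => ?_⟩, fun h' => ?_⟩
  · exact main q hq hF hn ha ι
  · exact e4 q (fun i => (hq i).pos) hF hn ω hε
  · have h : KumN F₀ F H ∨ HolT F₀ F H ∨ SymP F₀ H ∨
        ∀ K : IntermediateField F H, IsCyclic (AlgEquiv F K K) → HolM F K :=
      h'.imp_right (Or.imp_right fun h3 =>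
        Or.inr (h3.elim (fun h4 => Pool.Agent.FR.holm_symA h4.1 h4.2) id))
    obtain ⟨S₁, hS₁⟩ := exists_large ι
    exact ⟨S₁, fun S T r w fr hD => ⟨(ku_two (F₀ := F₀) ι S T w fr h hD).1, fun hS =>
      large ι (holAll (F₀ := F₀) ι h) hD (hS.elim (fun h1 => hS₁ S h1) id)⟩⟩

end Pool.Agent.Results.MP_dd9835_nt.AllKummerGroups
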