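import Pool.Agent.Lib_helper15.RB.MQ

/-!
# Rubin's conjecture for multiquadratic extensions
-/

namespace Pool.Agent.Results.MP_dd9835_nt.MultiquadraticRubin

open Pool.Agent.RB NumberField IsDedekindDomain

/-- Let `H/F` be a multiquadratic extension of number fields (a Galois extension whose group `G` is
killed by `2`) and `S, T, r, w_i` data as in Rubin's conjecture. Rubin's conjecture holds if

* the decomposition group `D_v` is cyclic for the places `v ∣ 2` in `S` (e.g. `H/F` is unramified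
  above `2`), or
* `F` is totally real and `H` totally complex, or
* for a finite set `P` of finite places containing the `v ∈ S` with `D_v` not cyclic, the product of
  the `|2|_v⁻¹`, `v ∈ P` (this is `2 ^ [F_v : ℚ_2]` for `v ∣ 2`, and `1` otherwise) is at most
  `2 ^ (ρ + 1)`, where `ρ` is the number of real places of `F` which become complex in `H`, or
* `#S ≥ r + rank G_S`, where `G_S` is generated by the `D_v`, `v ∈ S`, or
* `F = ℚ` or `#G ≤ 2` (known).

This is the case `κ = 0`. In general there is an element `u = e_r u` with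
`(w_1^* ∧ … ∧ w_r^*)(λ(u)) = Θ` such that `a u` lies in Rubin's lattice for all `a ∈ 𝔪 ^ κ`, where `𝔪`
is the ideal generated by `2` and the `g - 1`, if `ρ + 1` is replaced by `ρ + 1 + 2κ` in the third
condition or `#S` by `#S + κ` in the fourth one. For every `H/F`, `S`, `T`, `r` this is the case if
`[F : ℚ] ≤ 2κ + 1` or `#G ≤ 2 ^ (κ + 1)`. -/
theorem result {F H : Type} [Field F] [NumberField F] [Field H] [NumberField H] [Algebra F H]
    [IsGalois F H] {G : Type} [CommGroup G] [Fintype G] (ι : MulEquiv G (AlgEquiv F H H))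
    (S : Finset (InfinitePlace F ⊕ HeightOneSpectrum (RingOfIntegers F)))
    (T : Finset (HeightOneSpectrum (RingOfIntegers F))) {r : ℕ}
    (w : Fin r → InfinitePlace H ⊕ HeightOneSpectrum (RingOfIntegers H))
    (fr : HeightOneSpectrum (RingOfIntegers F) → G) (hD : Data ι S T w fr)
    (hexp : ∀ g : G, g ^ 2 = 1) (κ : ℕ)
    (hS : (∀ v : HeightOneSpectrum (RingOfIntegers F), Sum.inr v ∈ S →
        (2 : RingOfIntegers F) ∈ v.asIdeal → IsCyclic (Dg ι (Sum.inr v))) ∨
      (IsTotallyReal F ∧ IsTotallyComplex H) ∨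
      (∃ P : Finset (HeightOneSpectrum (RingOfIntegers F)),
        (∀ v, Sum.inr v ∈ S → v ∉ P → IsCyclic (Dg ι (Sum.inr v))) ∧
        (∏ v ∈ P, nabs (Sum.inr v) (2 : F))⁻¹ ≤
          2 ^ (Nat.card {v : InfinitePlace F // Dg ι (Sum.inl v) ≠ ⊥} + 1 + 2 * κ)) ∨
      Nat.card (⨆ v ∈ S, Dg ι v : Subgroup G) * 2 ^ r ≤ 2 ^ (S.card + κ) ∨
      Module.finrank ℚ F ≤ 2 * κ + 1 ∨ Nat.card G ≤ 2 ^ (κ + 1)) :
    RubinOn (Ideal.span ({2} ∪ {x | ∃ g : G, x = MonoidAlgebra.single g 1 - 1}) ^ κ)
      ι S T w fr :=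
  mq ι S T w fr hD hexp κ hS

end Pool.Agent.Results.MP_dd9835_nt.MultiquadraticRubin
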