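import Pool.Agent.Lib_helper49.FR.At

/-!
# Rubin's conjecture for abelian `p`-extensions
-/

namespace Pool.Agent.Results.MP_dd9835_nt.PExtensions

open Pool.Agent.RB NumberField IsDedekindDomain

/-- Let `H/F` be an abelian extension of number fields whose group `G` has order `p ^ e` and exponent
`p ^ f`, let `m = p ^ (f - 1) ((e - f) (p - 1) + 1)`, and let `S, T, r, w_i` be data as in Rubin's
conjecture. A rational Stark element is an element `u = e_r u` of `ℚ ⊗ ⋀^r U_{S,T}` with
`(w_1^* ∧ … ∧ w_r^*)(λ(u)) = Θ`.

(1) If more than `m` places in `S` do not split completely in `H`, then every rational Stark element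
lies in Rubin's lattice locally at `p`. For all `S`, the elements `a u`, where `u` is a rational Stark
element and `a` is in the ideal generated by `p ^ e` and the `m`-th power of the augmentation ideal,
lie in Rubin's lattice locally at `p`. Let `q ≠ p` be a prime such that all integers prime to `p` are
powers of `q` modulo `p ^ f`. Then every rational Stark element lies in Rubin's lattice locally at `q`
(for all `S`).

(2) Let `F₀ ⊆ F` and `H ⊆ L`. Rational Stark elements exist (Stark's conjecture over `ℚ`) if `L/F₀`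
is Galois and its group is a product of symmetric groups (`SymP`), if `H/F₀` is Galois with group
`G ⋊ (ℤ/n)ˣ` (`HolT`), if `H/F` is a Kummer extension of exponent `n` defined over `F₀`, where
`F = F₀(ζ_n)`, `[F : F₀] = φ(n)` (`KumN`), or if for all cyclic `K/F` in `H` an injective character
of `Gal(K/F)` induces to `Gal(L/F₀)` a difference of permutation characters (`PermK`).

(3) Suppose that `Gal(L/F₀)` is a product of symmetric groups and `L/F` is abelian, or that `HolT` or
`KumN` holds, or that all cyclic `K/F` in `H` are of holomorph type (`HolM`). Then there is an element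
`u = e_r u` with `(w_1^* ∧ … ∧ w_r^*)(λ(u)) = Θ` such that `a u` lies in Rubin's lattice for all `a` in
the ideal generated by `p ^ e` and the `m`-th power of the augmentation ideal, and Rubin's conjecture
is true if more than `m` places in `S` do not split completely in `H`. -/
theorem result {F₀ F H L : Type} [Field F₀] [NumberField F₀] [Field F] [NumberField F] [Field H]
    [NumberField H] [Field L] [NumberField L] [Algebra F₀ F] [Algebra F₀ H] [Algebra F₀ L]
    [Algebra F H] [Algebra F L] [Algebra H L] [IsScalarTower F₀ F H] [IsScalarTower F₀ F L]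
    [IsScalarTower F H L] [IsGalois F H] {G : Type} [CommGroup G] [Fintype G]
    (ι : MulEquiv G (AlgEquiv F H H))
    (S : Finset (InfinitePlace F ⊕ HeightOneSpectrum (RingOfIntegers F)))
    (T : Finset (HeightOneSpectrum (RingOfIntegers F))) {r : ℕ}
    (w : Fin r → InfinitePlace H ⊕ HeightOneSpectrum (RingOfIntegers H))
    (fr : HeightOneSpectrum (RingOfIntegers F) → G) (hD : Data ι S T w fr)
    (p e f : ℕ) (hp : p.Prime) (he : Nat.card G = p ^ e) (hf : Monoid.exponent G = p ^ f) :
    (∀ u, Stark ι S T w fr u →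
      (∀ a : MonoidAlgebra ℤ G, (r + p ^ (f - 1) * ((e - f) * (p - 1) + 1) < S.card ∨
        a ∈ Ideal.span {(p : MonoidAlgebra ℤ G) ^ e} ⊔
          Ideal.span {x | ∃ g : G, x = MonoidAlgebra.single g 1 - 1} ^
            (p ^ (f - 1) * ((e - f) * (p - 1) + 1))) → IntAt p a ι S T u) ∧
      ∀ q : ℕ, q.Prime → q ≠ p → (∀ a : ℕ, a.Coprime p → ∃ i : ℕ, q ^ i ≡ a [MOD p ^ f]) →
        IntAt q 1 ι S T u) ∧
    ((SymP F₀ L ∨ HolT F₀ F H ∨ KumN F₀ F H ∨
      ∀ K : IntermediateField F H, K ≠ ⊥ → IsCyclic (AlgEquiv F K K) → PermK F₀ F K L) →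
        ∃ u, Stark ι S T w fr u) ∧
    ((SymP F₀ L ∧ (∀ s t : AlgEquiv F L L, s * t = t * s) ∨ HolT F₀ F H ∨ KumN F₀ F H ∨
      ∀ K : IntermediateField F H, IsCyclic (AlgEquiv F K K) → HolM F K) →
        RubinOn (Ideal.span {(p : MonoidAlgebra ℤ G) ^ e} ⊔
          Ideal.span {x | ∃ g : G, x = MonoidAlgebra.single g 1 - 1} ^
            (p ^ (f - 1) * ((e - f) * (p - 1) + 1))) ι S T w fr ∧
        (r + p ^ (f - 1) * ((e - f) * (p - 1) + 1) < S.card → RubinOn ⊤ ι S T w fr)) :=
  have h := atp (F₀ := F₀) (L := L) ι S T w fr hD p e f hp he hf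
  ⟨h.1, h.2, FR.full ι S T w fr hD p e f hp he hf⟩

end Pool.Agent.Results.MP_dd9835_nt.PExtensions
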