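import Pool.Agent.Lib_helper24.PD.Final
import Pool.Agent.Lib_helper49.FR.Sa

/-!
# Rubin's conjecture for cyclic extensions of prime degree, up to one residue modulo `p`
-/

namespace Pool.Agent.Results.MP_dd9835_nt.PrimeDegree

open Pool.Agent.RB Pool.Agent.PD NumberField IsDedekindDomain

/-- Let `F₀ ⊆ F ⊆ H ⊆ L` be number fields such that `H/F` is cyclic of prime degree `p`, with group `G`.
Suppose that `Gal(L/F₀)` is a product of symmetric groups (`SymP`), or that `H/F₀` is Galois with group
`G ⋊ (ℤ/m)ˣ` (`HolT`), or that `H/F` is a Kummer extension of exponent `n` with radicands in `F₀`,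
`F = F₀(ζ_n)`, `[F : F₀] = φ(n)` (`KumN`), or that an injective character of `G` induces to `Gal(L/F₀)`
a difference of permutation characters (`PermK`), or that `H/F` is of holomorph type (`HolM`).

(1) For all `S`, `T`, `r`, `w_i` rational Stark elements `u` exist. If `#S ≥ r + 2`, or if `p` divides
the order `clF` of `Cl_{S,T}(F)` and the order `clH` of the quotient of `Cl_{S,T}(H)` by the image of
`Cl_{S,T}(F)`, then `u` lies in Rubin's lattice locally at `p`. If `KumN`, `HolT`, `SymP` with `L/F`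
abelian, or `HolM`, then Rubin's conjecture is true for `S`, `T`, `r`, `w_i` if and only if `u` lies in
Rubin's lattice locally at `p`.

(2) In the remaining case `#S = r + 1` there is exactly one place `v₀ ∈ S` which does not split
completely in `H`. For every place `v₀` of `F` which does not split completely in `H` there is an
integer `a` which is not divisible by `p` such that for all `S`, `T`, `r`, `w_i` with `v₀ ∈ S`,
`#S = r + 1`, and `p ∤ #Cl_{S,T}(F)`, the element `((1 - e_1) + a e_1) u` lies in Rubin's lattice locally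
at `p`, and `u` lies in Rubin's lattice locally at `p` if and only if `a ≡ 1` modulo `p`. -/
theorem result {F₀ F H L : Type} [Field F₀] [NumberField F₀] [Field F] [NumberField F] [Field H]
    [NumberField H] [Field L] [NumberField L] [Algebra F₀ F] [Algebra F₀ H] [Algebra F₀ L]
    [Algebra F H] [Algebra F L] [Algebra H L] [IsScalarTower F₀ F H] [IsScalarTower F₀ F L]
    [IsScalarTower F H L] [IsGalois F H] {G : Type} [CommGroup G] [Fintype G]
    (ι : MulEquiv G (AlgEquiv F H H)) {p : ℕ} (hp : p.Prime) (hG : Nat.card G = p)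
    (h : SymP F₀ L ∨ HolT F₀ F H ∨ KumN F₀ F H ∨
      (∀ K : IntermediateField F H, K ≠ ⊥ → IsCyclic (AlgEquiv F K K) → PermK F₀ F K L) ∨
      ∀ K : IntermediateField F H, IsCyclic (AlgEquiv F K K) → HolM F K) :
    (∀ (S : Finset (InfinitePlace F ⊕ HeightOneSpectrum (RingOfIntegers F)))
      (T : Finset (HeightOneSpectrum (RingOfIntegers F))) (r : ℕ)
      (w : Fin r → InfinitePlace H ⊕ HeightOneSpectrum (RingOfIntegers H))
      (fr : HeightOneSpectrum (RingOfIntegers F) → G), Data ι S T w fr →
      (∃ u, Stark ι S T w fr u) ∧ ∀ u, Stark ι S T w fr u →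
        ((r + 2 ≤ S.card ∨ p ∣ clF S T ∧ p ∣ clH H S T) → LatAt p 1 ι S T u) ∧
        ((KumN F₀ F H ∨ HolT F₀ F H ∨ (SymP F₀ L ∧ ∀ s t : AlgEquiv F L L, s * t = t * s) ∨
          ∀ K : IntermediateField F H, IsCyclic (AlgEquiv F K K) → HolM F K) →
          (LatAt p 1 ι S T u ↔ RubinOn ⊤ ι S T w fr))) ∧
    ∀ v₀ : InfinitePlace F ⊕ HeightOneSpectrum (RingOfIntegers F), Dg ι v₀ ≠ ⊥ →
      ∃ a : ℤ, ¬ (p : ℤ) ∣ a ∧
        ∀ (S : Finset (InfinitePlace F ⊕ HeightOneSpectrum (RingOfIntegers F)))
          (T : Finset (HeightOneSpectrum (RingOfIntegers F))) (r : ℕ)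
          (w : Fin r → InfinitePlace H ⊕ HeightOneSpectrum (RingOfIntegers H))
          (fr : HeightOneSpectrum (RingOfIntegers F) → G)
          (u : Finsupp (Fin r → Units H) (MonoidAlgebra ℚ G)), Data ι S T w fr →
          Stark ι S T w fr u → v₀ ∈ S → S.card = r + 1 → ¬ p ∣ clF S T →
            LatAt p (onePlus G (((a : ℚ) - 1) / p)) ι S T u ∧
              (LatAt p 1 ι S T u ↔ (p : ℤ) ∣ a - 1) :=
  ⟨fun S T r w fr hD => ⟨((main ι hp hG h).1 S T r w fr hD).1, fun u hu =>
    ⟨(((main ι hp hG h).1 S T r w fr hD).2 u hu).1, fun h2 =>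
      (((main ι hp hG h).1 S T r w fr hD).2 u hu).2 (h2.imp_right (Or.imp_right fun h3 =>
        Or.inr (h3.elim (fun h4 => Pool.Agent.FR.holm_symA h4.1 h4.2) id)))⟩⟩,
    (main ι hp hG h).2⟩

end Pool.Agent.Results.MP_dd9835_nt.PrimeDegree
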